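import Pool.Agent.H440Z.Rig.Main

/-!
# Redundantly rigid placements of unions of Hamilton cycles in `ℓ_q^d`

First part: no (`K_5`, `d = 2`, `q = 1` and `q = ∞`). Second part: yes, for all but finitely many
real `q > 1`.
-/

set_option autoImplicit false

namespace Pool.Agent.Results.MP_7ac2f5_co.AHamiltonUnions

open Pool.Agent.H440Z.Rig

theorem result :
    (HamiltonUnion 2 (⊤ : SimpleGraph (Fin 5)) ∧
      (¬ ∃ p : Fin 5 → Fin 2 → ℝ, RedundantlyRigid 1 (⊤ : SimpleGraph (Fin 5)) p) ∧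
      (¬ ∃ p : Fin 5 → Fin 2 → ℝ, RedundantlyRigid ⊤ (⊤ : SimpleGraph (Fin 5)) p)) ∧
    ∀ (d : ℕ), 2 ≤ d → ∀ (V : Type) [Fintype V] [DecidableEq V] (G : SimpleGraph V),
      HamiltonUnion d G →
        {q : ℝ | 1 < q ∧ ¬ ∃ p : V → Fin d → ℝ, RedundantlyRigid (ENNReal.ofReal q) G p}.Finite :=
  ⟨⟨ham_K5, fun ⟨p, h⟩ => not_rr_one p h, fun ⟨p, h⟩ => not_rr_top p h⟩,
    fun _ hd _ _ _ _ hG => generic (by omega) hG⟩

end Pool.Agent.Results.MP_7ac2f5_co.AHamiltonUnions
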